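import Mathlib
import Pool.Agent.H29.CoCons

set_option autoImplicit false

namespace Pool.Agent.Results.MP_a60c23_gt.Counter
open Set Pool.Agent.H29.CoCons

/-- All closed sets. -/
def Hoare (T : Type) [TopologicalSpace T] : Type := {A : Set T // IsClosed A}

/-- The lower Vietoris topology. -/
instance lowerVietoris (T : Type) [TopologicalSpace T] : TopologicalSpace (Hoare T) :=
  TopologicalSpace.generateFrom
    {S | ∃ U : Set T, IsOpen U ∧ S = {A : Hoare T | (A.1 ∩ U).Nonempty}}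

theorem dia {U : Set X} (hU : IsOpen U) : IsOpen {A : Hoare X | (A.1 ∩ U).Nonempty} :=
  TopologicalSpace.isOpen_generateFrom_of_mem ⟨U, hU, rfl⟩

def i (g : Y) : Hoare X := ⟨closure {X.y g}, isClosed_closure⟩
def j (p : Z) : Hoare X := ⟨closure {X.z p, X.m}, isClosed_closure⟩

theorem hi {U : Set X} (hU : IsOpen U) (g : Y) : ((i g).1 ∩ U).Nonempty ↔ X.y g ∈ U :=
  (closure_inter_open_nonempty_iff hU).trans singleton_inter_nonempty

theorem hj {U : Set X} (hU : IsOpen U) (p : Z) :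
    ((j p).1 ∩ U).Nonempty ↔ X.z p ∈ U ∨ X.m ∈ U :=
  (closure_inter_open_nonempty_iff hU).trans
    ⟨by rintro ⟨_, rfl | rfl, h⟩; exacts [Or.inl h, Or.inr h],
      fun h => h.elim (fun h => ⟨_, Or.inl rfl, h⟩) fun h => ⟨_, Or.inr rfl, h⟩⟩

theorem ci : Continuous i := by
  refine continuous_generateFrom_iff.2 ?_
  rintro _ ⟨U, hU, rfl⟩
  have : i ⁻¹' {A : Hoare X | (A.1 ∩ U).Nonempty} = X.y ⁻¹' U := by
    ext g; exact hi hU g
  rw [this]
  exact hU.1

theorem cj : Continuous j := by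
  refine continuous_generateFrom_iff.2 ?_
  rintro _ ⟨U, hU, rfl⟩
  have : j ⁻¹' {A : Hoare X | (A.1 ∩ U).Nonempty} = X.z ⁻¹' U ∪ {_g | X.m ∈ U} := by
    ext g; exact hj hU g
  rw [this]
  exact hU.2.1.union isOpen_const

theorem not_co : ¬ CoConsonant (Hoare X) := by
  have o1 := open_y isOpen_univ (M := ∅) (empty_subset _)
  have o2 := open_z isOpen_univ (M := ∅) (empty_subset _)
  refine not_cc i j ci cj _ ((dia o1).union ((dia o2).inter (dia open_m)))
    (fun g => Or.inl ((hi o1 g).2 (by simp)))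
    (fun p => Or.inr ⟨(hj o2 p).2 (by simp), (hj open_m p).2 (by simp)⟩) ?_
  have hy : ∀ (K : Hoare X) (g : Y), X.y g ∈ K.1 →
      ∃ (E1 : Set Y) (E2 : Set Z), E1.Finite ∧ E2.Finite ∧
      ∀ G H, IsOpen G → IsOpen H → E1 ⊆ G → E2 ⊆ H →
        ∃ V, IsOpen V ∧ K ∈ V ∧ i ⁻¹' V ⊆ G ∧ j ⁻¹' V ⊆ H := by
    intro K g hg
    refine ⟨{g}, ∅, finite_singleton _, finite_empty, fun G H hG _ a _ => ?_⟩
    have o := open_y hG (M := ∅) (empty_subset _)
    refine ⟨_, dia o, ⟨_, hg, Or.inl ⟨g, a rfl, rfl⟩⟩, fun g hg => ?_, fun p hp => ?_⟩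
    · simpa using (hi o g).1 hg
    · simpa using (hj o p).1 hp
  rintro K (⟨x, hx, ⟨g, -, rfl⟩ | h⟩ | ⟨⟨x, hx, ⟨p, -, rfl⟩ | ⟨g, rfl⟩ | h⟩, hm⟩)
  · exact hy K g hx
  · exact h.elim
  · refine ⟨∅, {p}, finite_empty, finite_singleton _, fun G H _ hH _ a => ?_⟩
    have o := open_z hH (M := ∅) (empty_subset _)
    refine ⟨_, (dia o).inter (dia open_m), ⟨⟨_, hx, Or.inl ⟨p, a rfl, rfl⟩⟩, hm⟩,
      fun g hg => ?_, fun p hp => ?_⟩
    · simpa using (hi open_m g).1 hg.2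
    · simpa using (hj o p).1 hp.1
  · exact hy K g hx
  · exact h.elim

theorem result : ∃ (T : Type) (_ : TopologicalSpace T),
    T0Space T ∧ CoConsonant T ∧ ¬ CoConsonant (Hoare T) :=
  ⟨X, inferInstance, inferInstance, cc_iff.2 pfX, not_co⟩

end Pool.Agent.Results.MP_a60c23_gt.Counter
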